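import Mathlib

/-!
# Enforcer wins on linear rank-3 hypergraphs of minimum degree at least 8

In the Avoider-Enforcer game on a linear hypergraph of rank 3 with minimum degree at least 8,
Enforcer has a winning strategy when he makes the last move. The strategy picks a vertex of least
value, where the edges not touched by Enforcer are weighted by `2 ^ (- number of unpicked points)`.
-/

namespace Pool.Agent.Results.MP_8d7a8d_co.EnforcerDegreeEight

variable {V : Type*} [DecidableEq V]

/-- `EnforcerWins E n t Av R`: in the position where Avoider holds the vertices `Av`, the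
vertices `R` are unpicked, `n` picks remain to be made and Enforcer is to move exactly when
`t = true`, Enforcer can force that at the end Avoider holds all vertices of some edge in `E`. -/
def EnforcerWins (E : Finset (Finset V)) : ℕ → Bool → Finset V → Finset V → Prop
  | 0, _, Av, _ => ∃ e ∈ E, e ⊆ Av
  | n + 1, true, Av, R => ∃ y ∈ R, EnforcerWins E n false Av (R.erase y)
  | n + 1, false, Av, R => ∀ x ∈ R, EnforcerWins E n true (insert x Av) (R.erase x)

/-- total weight of the untouched edges with the property `P` -/
private def S (E : Finset (Finset V)) (Av R : Finset V) (P : Finset V → Prop) [DecidablePred P] :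
    ℚ :=
  ∑ e ∈ E, if e ⊆ Av ∪ R ∧ P e then (1 / 2 : ℚ) ^ (e ∩ R).card else 0

private lemma pair_le (E : Finset (Finset V))
    (hlin : ∀ e ∈ E, ∀ f ∈ E, e ≠ f → (e ∩ f).card ≤ 1) (Av R : Finset V) {a b : V}
    (ha : a ∈ R) (hb : b ∈ R) (hab : a ≠ b) :
    S E Av R (fun e => a ∈ e ∧ b ∈ e) ≤ 1 / 4 := by
  unfold S
  rw [← Finset.sum_filter]
  set F := E.filter (fun e => e ⊆ Av ∪ R ∧ a ∈ e ∧ b ∈ e) with hF
  have hcard : F.card ≤ 1 := by
    rw [Finset.card_le_one]
    intro e he f hf
    rw [hF, Finset.mem_filter] at he hf
    by_contra hne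
    have h1 := hlin e he.1 f hf.1 hne
    have h2 : ({a, b} : Finset V) ⊆ e ∩ f := by
      intro c hc
      simp only [Finset.mem_insert, Finset.mem_singleton] at hc
      rcases hc with rfl | rfl
      · exact Finset.mem_inter.2 ⟨he.2.2.1, hf.2.2.1⟩
      · exact Finset.mem_inter.2 ⟨he.2.2.2, hf.2.2.2⟩
    have h3 := Finset.card_le_card h2
    rw [Finset.card_pair hab] at h3
    omega
  calc ∑ e ∈ F, (1 / 2 : ℚ) ^ (e ∩ R).card ≤ ∑ _e ∈ F, (1 / 4 : ℚ) := by
        apply Finset.sum_le_sum
        intro e he
        rw [hF, Finset.mem_filter] at he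
        have h2 : ({a, b} : Finset V) ⊆ e ∩ R := by
          intro c hc
          simp only [Finset.mem_insert, Finset.mem_singleton] at hc
          rcases hc with rfl | rfl
          · exact Finset.mem_inter.2 ⟨he.2.2.1, ha⟩
          · exact Finset.mem_inter.2 ⟨he.2.2.2, hb⟩
        have h3 := Finset.card_le_card h2
        rw [Finset.card_pair hab] at h3
        calc (1 / 2 : ℚ) ^ (e ∩ R).card ≤ (1 / 2 : ℚ) ^ 2 :=
              pow_le_pow_of_le_one (by norm_num) (by norm_num) h3
          _ = 1 / 4 := by norm_num
    _ = F.card * (1 / 4 : ℚ) := by rw [Finset.sum_const, nsmul_eq_mul]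
    _ ≤ 1 * (1 / 4 : ℚ) := by
        apply mul_le_mul_of_nonneg_right _ (by norm_num)
        exact_mod_cast hcard
    _ = 1 / 4 := by norm_num

/-- one round: Enforcer picks `p`, Avoider picks `x` -/
private lemma round (E : Finset (Finset V)) (Av R : Finset V) (hd : Disjoint Av R) {p x z : V}
    (hp : p ∈ R) (hx : x ∈ R) (hpx : p ≠ x) :
    S E Av R (fun e => z ∉ e) - S E Av R (fun e => p ∈ e) + S E Av R (fun e => x ∈ e)
      - S E Av R (fun e => p ∈ e ∧ x ∈ e) - S E Av R (fun e => x ∈ e ∧ z ∈ e)
      ≤ S E (insert x Av) ((R.erase p).erase x) (fun e => z ∉ e) := by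
  unfold S
  rw [← Finset.sum_sub_distrib, ← Finset.sum_add_distrib, ← Finset.sum_sub_distrib,
    ← Finset.sum_sub_distrib]
  apply Finset.sum_le_sum
  intro e _
  have hpAv : p ∉ Av := fun h => Finset.disjoint_left.1 hd h hp
  have halive : e ⊆ insert x Av ∪ (R.erase p).erase x ↔ e ⊆ Av ∪ R ∧ p ∉ e := by
    constructor
    · intro h
      refine ⟨fun c hc => ?_, fun hpe => ?_⟩
      · have := h hc
        simp only [Finset.mem_union, Finset.mem_insert, Finset.mem_erase] at this ⊢
        rcases this with (rfl | h) | h
        · exact Or.inr hx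
        · exact Or.inl h
        · exact Or.inr h.2.2
      · have := h hpe
        simp only [Finset.mem_union, Finset.mem_insert, Finset.mem_erase] at this
        rcases this with (h | h) | h
        · exact hpx h
        · exact hpAv h
        · exact h.2.1 rfl
    · rintro ⟨h, hpe⟩ c hc
      have hcp : c ≠ p := fun hcp => hpe (hcp ▸ hc)
      have := h hc
      simp only [Finset.mem_union, Finset.mem_insert, Finset.mem_erase] at this ⊢
      by_cases hcx : c = x
      · exact Or.inl (Or.inl hcx)
      · rcases this with h | h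
        · exact Or.inl (Or.inr h)
        · exact Or.inr ⟨hcx, hcp, h⟩
  have hw : p ∉ e → (1 / 2 : ℚ) ^ (e ∩ (R.erase p).erase x).card =
      (1 / 2 : ℚ) ^ (e ∩ R).card * (if x ∈ e then 2 else 1) := by
    intro hpe
    have h1 : e ∩ (R.erase p).erase x = (e ∩ R).erase x := by
      ext c
      simp only [Finset.mem_inter, Finset.mem_erase]
      constructor
      · rintro ⟨h1, h2, h3, h4⟩
        exact ⟨h2, h1, h4⟩
      · rintro ⟨h1, h2, h3⟩
        exact ⟨h2, h1, fun h => hpe (h ▸ h2), h3⟩
    rw [h1]
    split_ifs with hxe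
    · rw [Finset.card_erase_of_mem (Finset.mem_inter.2 ⟨hxe, hx⟩)]
      have hpos : 0 < (e ∩ R).card := Finset.card_pos.2 ⟨x, Finset.mem_inter.2 ⟨hxe, hx⟩⟩
      obtain ⟨m, hm⟩ : ∃ m, (e ∩ R).card = m + 1 := ⟨(e ∩ R).card - 1, by omega⟩
      rw [hm, Nat.add_sub_cancel, pow_succ]
      ring
    · rw [Finset.erase_eq_of_notMem (fun h => hxe (Finset.mem_inter.1 h).1), mul_one]
  have hpos : 0 < (1 / 2 : ℚ) ^ (e ∩ R).card := by positivity
  simp only [halive]
  by_cases hal : e ⊆ Av ∪ R
  · by_cases hpe : p ∈ e
    · by_cases hxe : x ∈ e <;> by_cases hze : z ∈ e <;>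
        simp only [hal, hpe, hxe, hze, true_and, and_true, not_true_eq_false, not_false_eq_true,
          if_true, if_false, and_false, false_and, and_self] <;> linarith
    · rw [hw hpe]
      by_cases hxe : x ∈ e <;> by_cases hze : z ∈ e <;>
        simp only [hal, hpe, hxe, hze, true_and, and_true, not_true_eq_false, not_false_eq_true,
          if_true, if_false, and_false, false_and, and_self] <;> linarith
  · simp [hal]

/-- The main induction. -/
private lemma main_step (E : Finset (Finset V))
    (hlin : ∀ e ∈ E, ∀ f ∈ E, e ≠ f → (e ∩ f).card ≤ 1) :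
    ∀ (m : ℕ) (Av R : Finset V), Disjoint Av R → R.card = 2 * m + 1 →
      (∀ z ∈ R, (m : ℚ) / 2 < S E Av R (fun e => z ∉ e)) →
      EnforcerWins E (2 * m + 1) true Av R := by
  intro m
  induction m with
  | zero =>
    intro Av R hd hR hU
    obtain ⟨y, rfl⟩ := Finset.card_eq_one.1 hR
    refine ⟨y, Finset.mem_singleton_self y, ?_⟩
    have h := hU y (Finset.mem_singleton_self y)
    by_contra hne
    have hne' : ¬ ∃ e ∈ E, e ⊆ Av := hne
    push Not at hne'
    have : S E Av {y} (fun e => y ∉ e) = 0 := by
      unfold S
      apply Finset.sum_eq_zero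
      intro e he
      rw [if_neg]
      rintro ⟨h1, h2⟩
      apply hne' e he
      intro c hc
      have := h1 hc
      rw [Finset.mem_union, Finset.mem_singleton] at this
      rcases this with h | rfl
      · exact h
      · exact absurd hc h2
    rw [this] at h
    norm_num at h
  | succ m ih =>
    intro Av R hd hR hU
    have hRne : R.Nonempty := Finset.card_pos.1 (by omega)
    obtain ⟨p, hp, hmin⟩ := Finset.exists_min_image R (fun z => S E Av R (fun e => z ∈ e)) hRne
    have hgoal : EnforcerWins E (2 * m + 1 + 1) false Av (R.erase p) := by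
      intro x hx
      have hxR := Finset.mem_of_mem_erase hx
      have hpx : p ≠ x := (Finset.ne_of_mem_erase hx).symm
      apply ih
      · rw [Finset.disjoint_left] at hd ⊢
        intro c hc hc'
        simp only [Finset.mem_insert, Finset.mem_erase] at hc hc'
        rcases hc with rfl | hc
        · exact hc'.1 rfl
        · exact hd hc hc'.2.2
      · rw [Finset.card_erase_of_mem hx, Finset.card_erase_of_mem hp, hR]
        omega
      · intro z hz
        simp only [Finset.mem_erase] at hz
        have h1 := round E Av R hd (z := z) hp hxR hpx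
        have h2 := pair_le E hlin Av R hp hxR hpx
        have h3 := pair_le E hlin Av R hxR hz.2.2 (Ne.symm hz.1)
        have h4 := hmin x hxR
        have h5 := hU z hz.2.2
        push_cast at h5
        linarith
    exact ⟨p, hp, hgoal⟩

/-- the weight of the edges missing `z` at the start -/
private lemma start_weight [Fintype V] (E : Finset (Finset V)) (hrank : ∀ e ∈ E, e.card ≤ 3)
    (hlin : ∀ e ∈ E, ∀ f ∈ E, e ≠ f → (e ∩ f).card ≤ 1)
    (hdeg : ∀ v : V, 8 ≤ (E.filter (fun e => v ∈ e)).card) (z : V) :
    7 * ((Fintype.card V : ℚ) - 1) / 24 ≤ ∑ e ∈ E, if z ∉ e then (1 / 2 : ℚ) ^ e.card else 0 := by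
  have h1 : ∀ e ∈ E, (if z ∉ e then (e.card : ℚ) / 24 else 0) ≤
      (if z ∉ e then (1 / 2 : ℚ) ^ e.card else 0) := by
    intro e he
    by_cases hz : z ∈ e
    · simp [hz]
    · rw [if_pos hz, if_pos hz]
      have := hrank e he
      interval_cases h : e.card <;> norm_num
  refine le_trans ?_ (Finset.sum_le_sum h1)
  have h2 : ∀ e : Finset V, (if z ∉ e then (e.card : ℚ) / 24 else 0) =
      ∑ u : V, if u ∈ e ∧ z ∉ e then (1 / 24 : ℚ) else 0 := by
    intro e
    by_cases hz : z ∉ e
    · rw [if_pos hz]
      have : ∀ u : V, (if u ∈ e ∧ z ∉ e then (1 / 24 : ℚ) else 0) = if u ∈ e then 1 / 24 else 0 := by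
        intro u
        simp [hz]
      rw [Finset.sum_congr rfl fun u _ => this u, ← Finset.sum_filter, Finset.sum_const,
        Finset.filter_mem_eq_inter, Finset.univ_inter, nsmul_eq_mul]
      ring
    · rw [if_neg hz]
      symm
      apply Finset.sum_eq_zero
      intro u _
      rw [if_neg]
      tauto
  rw [Finset.sum_congr rfl fun e _ => h2 e, Finset.sum_comm]
  have h3 : ∀ u ∈ (Finset.univ.erase z : Finset V), (7 / 24 : ℚ) ≤
      ∑ e ∈ E, if u ∈ e ∧ z ∉ e then (1 / 24 : ℚ) else 0 := by
    intro u hu
    have huz : u ≠ z := Finset.ne_of_mem_erase hu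
    rw [← Finset.sum_filter, Finset.sum_const, nsmul_eq_mul]
    have hc : 7 ≤ (E.filter (fun e => u ∈ e ∧ z ∉ e)).card := by
      have hsplit : (E.filter (fun e => u ∈ e)).card =
          (E.filter (fun e => u ∈ e ∧ z ∈ e)).card + (E.filter (fun e => u ∈ e ∧ z ∉ e)).card := by
        rw [← Finset.filter_filter, ← Finset.filter_filter,
          Finset.card_filter_add_card_filter_not]
      have hone : (E.filter (fun e => u ∈ e ∧ z ∈ e)).card ≤ 1 := by
        rw [Finset.card_le_one]
        intro e he f hf
        rw [Finset.mem_filter] at he hf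
        by_contra hne
        have h1 := hlin e he.1 f hf.1 hne
        have h2 : ({u, z} : Finset V) ⊆ e ∩ f := by
          intro c hc
          simp only [Finset.mem_insert, Finset.mem_singleton] at hc
          rcases hc with rfl | rfl
          · exact Finset.mem_inter.2 ⟨he.2.1, hf.2.1⟩
          · exact Finset.mem_inter.2 ⟨he.2.2, hf.2.2⟩
        have h3 := Finset.card_le_card h2
        rw [Finset.card_pair huz] at h3
        omega
      have := hdeg u
      omega
    have : (7 : ℚ) ≤ ((E.filter (fun e => u ∈ e ∧ z ∉ e)).card : ℚ) := by exact_mod_cast hc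
    linarith
  calc 7 * ((Fintype.card V : ℚ) - 1) / 24
      = ∑ _u ∈ (Finset.univ.erase z : Finset V), (7 / 24 : ℚ) := by
        rw [Finset.sum_const, Finset.card_erase_of_mem (Finset.mem_univ z), Finset.card_univ,
          nsmul_eq_mul, Nat.cast_sub (Fintype.card_pos_iff.2 ⟨z⟩)]
        push_cast
        ring
    _ ≤ ∑ u ∈ (Finset.univ.erase z : Finset V),
          ∑ e ∈ E, (if u ∈ e ∧ z ∉ e then (1 / 24 : ℚ) else 0) := Finset.sum_le_sum h3
    _ ≤ _ := by
        apply Finset.sum_le_sum_of_subset_of_nonneg (Finset.erase_subset _ _)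
        intro u _ _
        apply Finset.sum_nonneg
        intro e _
        split_ifs <;> norm_num

/-- The question has a positive answer with the constant `8`: on every linear hypergraph of rank 3
with minimum degree at least 8, Enforcer wins when he makes the last move (so Enforcer moves first
exactly when the number of vertices is odd). -/
theorem result {V : Type*} [Fintype V] [DecidableEq V] [Nonempty V] (E : Finset (Finset V))
    (hrank : ∀ e ∈ E, e.card ≤ 3)
    (hlinear : ∀ e ∈ E, ∀ f ∈ E, e ≠ f → (e ∩ f).card ≤ 1)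
    (hdegree : ∀ v : V, 8 ≤ (E.filter (fun e => v ∈ e)).card) :
    EnforcerWins E (Fintype.card V) (decide (Odd (Fintype.card V))) ∅ Finset.univ := by
  have hcard2 : 2 ≤ Fintype.card V := by
    by_contra hlt
    have h1 : Fintype.card V ≤ 1 := by omega
    obtain ⟨v⟩ := ‹Nonempty V›
    have h2 := hdegree v
    have h3 : (E.filter (fun e => v ∈ e)).card ≤ 1 := by
      rw [Finset.card_le_one]
      intro e he f hf
      rw [Finset.mem_filter] at he hf
      have : Subsingleton V := Fintype.card_le_one_iff_subsingleton.1 h1
      ext c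
      rw [Subsingleton.elim c v]
      exact ⟨fun _ => hf.2, fun _ => he.2⟩
    omega
  have hcardq : (2 : ℚ) ≤ Fintype.card V := by exact_mod_cast hcard2
  rcases Nat.even_or_odd' (Fintype.card V) with ⟨k, hk | hk⟩
  · -- Avoider moves first
    have hodd : decide (Odd (Fintype.card V)) = false := by
      rw [decide_eq_false_iff_not, Nat.not_odd_iff_even]
      exact ⟨k, by omega⟩
    rw [hodd]
    obtain ⟨m, rfl⟩ : ∃ m, k = m + 1 := ⟨k - 1, by omega⟩
    rw [hk, show 2 * (m + 1) = 2 * m + 1 + 1 by ring]
    intro x _
    apply main_step E hlinear m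
    · rw [Finset.disjoint_left]
      intro c hc hc'
      simp only [Finset.mem_insert, Finset.notMem_empty, or_false, Finset.mem_erase] at hc hc'
      exact hc'.1 hc
    · rw [Finset.card_erase_of_mem (Finset.mem_univ x), Finset.card_univ, hk]
      omega
    · intro z _
      have hs := start_weight E hrank hlinear hdegree z
      have hle : (∑ e ∈ E, if z ∉ e then (1 / 2 : ℚ) ^ e.card else 0) ≤
          S E (insert x ∅) (Finset.univ.erase x) (fun e => z ∉ e) := by
        unfold S
        apply Finset.sum_le_sum
        intro e _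
        have hal : e ⊆ insert x ∅ ∪ Finset.univ.erase x := by
          intro c _
          by_cases hc : c = x
          · simp [hc]
          · simp
        by_cases hz : z ∈ e
        · simp [hz]
        · rw [if_pos hz, if_pos ⟨hal, hz⟩]
          apply pow_le_pow_of_le_one (by norm_num) (by norm_num)
          exact Finset.card_le_card Finset.inter_subset_left
      have hk' : (Fintype.card V : ℚ) = 2 * (m + 1) := by
        rw [hk]; push_cast; ring
      rw [hk'] at hs
      have : (0 : ℚ) ≤ m := Nat.cast_nonneg m
      linarith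
  · have hodd : decide (Odd (Fintype.card V)) = true := by
      rw [decide_eq_true_eq]
      exact ⟨k, hk⟩
    rw [hodd, hk]
    apply main_step E hlinear k
    · exact Finset.disjoint_empty_left _
    · rw [Finset.card_univ, hk]
    · intro z _
      have hs := start_weight E hrank hlinear hdegree z
      have hle : (∑ e ∈ E, if z ∉ e then (1 / 2 : ℚ) ^ e.card else 0) ≤
          S E ∅ Finset.univ (fun e => z ∉ e) := by
        unfold S
        apply Finset.sum_le_sum
        intro e _
        by_cases hz : z ∈ e
        · simp [hz]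
        · simp [hz]
      have hk' : (Fintype.card V : ℚ) = 2 * k + 1 := by
        rw [hk]; push_cast; ring
      rw [hk'] at hs hcardq
      linarith

end Pool.Agent.Results.MP_8d7a8d_co.EnforcerDegreeEight
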